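import Pool.Agent.Lib.MP_ff3579_an.X.Iface

/-!
Module NPL of project X: a prime in `[0.9 N, 1.1 N]` for `25000 ≤ N < 10^6`.
-/

set_option autoImplicit false

namespace Pool.Agent.Lib.MP_ff3579_an.X.H16

open Pool.Agent.Lib.MP_ff3579_an Pool.Agent.Lib.MP_ff3579_an.X

theorem npl : NplStatement := by
  intro N h1 h2
  by_cases c0 : 9 * N ≤ 10 * 27487
  · exact ⟨27487, by norm_num, c0, by omega⟩
  by_cases c1 : 9 * N ≤ 10 * 33589
  · exact ⟨33589, by norm_num, c1, by omega⟩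
  by_cases c2 : 9 * N ≤ 10 * 41051
  · exact ⟨41051, by norm_num, c2, by omega⟩
  by_cases c3 : 9 * N ≤ 10 * 50159
  · exact ⟨50159, by norm_num, c3, by omega⟩
  by_cases c4 : 9 * N ≤ 10 * 61297
  · exact ⟨61297, by norm_num, c4, by omega⟩
  by_cases c5 : 9 * N ≤ 10 * 74903
  · exact ⟨74903, by norm_num, c5, by omega⟩
  by_cases c6 : 9 * N ≤ 10 * 91541
  · exact ⟨91541, by norm_num, c6, by omega⟩
  by_cases c7 : 9 * N ≤ 10 * 111871
  · exact ⟨111871, by norm_num, c7, by omega⟩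
  by_cases c8 : 9 * N ≤ 10 * 136727
  · exact ⟨136727, by norm_num, c8, by omega⟩
  by_cases c9 : 9 * N ≤ 10 * 167107
  · exact ⟨167107, by norm_num, c9, by omega⟩
  by_cases c10 : 9 * N ≤ 10 * 204233
  · exact ⟨204233, by norm_num, c10, by omega⟩
  by_cases c11 : 9 * N ≤ 10 * 249607
  · exact ⟨249607, by norm_num, c11, by omega⟩
  by_cases c12 : 9 * N ≤ 10 * 305069
  · exact ⟨305069, by norm_num, c12, by omega⟩
  by_cases c13 : 9 * N ≤ 10 * 372859
  · exact ⟨372859, by norm_num, c13, by omega⟩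
  by_cases c14 : 9 * N ≤ 10 * 455711
  · exact ⟨455711, by norm_num, c14, by omega⟩
  by_cases c15 : 9 * N ≤ 10 * 556967
  · exact ⟨556967, by norm_num, c15, by omega⟩
  by_cases c16 : 9 * N ≤ 10 * 680707
  · exact ⟨680707, by norm_num, c16, by omega⟩
  by_cases c17 : 9 * N ≤ 10 * 831967
  · exact ⟨831967, by norm_num, c17, by omega⟩
  exact ⟨1016843, by norm_num, by omega, by omega⟩

end Pool.Agent.Lib.MP_ff3579_an.X.H16
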